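import Pool.Agent.MultiSpec.Density

/-!
# A power saving for the multidegrees that violate the arithmetic condition

Apart from the tuples in which some `d i` is a prime times an integer less than `C`, the tuples in
`[1, X] ^ r` violating `Cond C K n` number at most `M X ^ (r - 1 / (2 n + 2))`.
-/

set_option autoImplicit false

namespace Pool.Agent.MultiRate

open Finset Pool.Agent.MultiSpec.Density
open scoped Classical

/-- For a prime `p`, few integers are small compared with a power of their `p`-part. -/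
lemma card_small_rate (C n p P X : ℕ) (hp : p.Prime) (hP : 0 < P) (hX : (P ^ 2) ^ (n + 1) ≤ X) :
    (((Icc 1 X).filter fun a => p ∣ a ∧ a < C * (p ^ a.factorization p) ^ n).card : ℝ) ≤
      (((C : ℝ) + 1) / (P : ℝ) ^ 2) * X := by
  set V := Nat.log p (P ^ 2) + 1 with hV
  have h1 : p ^ (Nat.log p (P ^ 2)) ≤ P ^ 2 := Nat.pow_log_le_self p (by positivity)
  have h2 : P ^ 2 < p ^ V := Nat.lt_pow_succ_log_self hp.one_lt _
  have h : ((Icc 1 X).filter fun a => p ∣ a ∧ a < C * (p ^ a.factorization p) ^ n) ⊆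
      (Icc 1 (C * (P ^ 2) ^ n)) ∪ ((Icc 1 X).filter fun a => p ^ V ∣ a) := by
    intro a ha
    rw [mem_filter, mem_Icc] at ha
    obtain ⟨⟨h3, h4⟩, -, hlt⟩ := ha
    rw [mem_union]
    by_cases hV' : V ≤ a.factorization p
    · right
      exact mem_filter.2 ⟨mem_Icc.2 ⟨h3, h4⟩, (pow_dvd_pow p hV').trans (Nat.ordProj_dvd a p)⟩
    · left
      rw [mem_Icc]
      refine ⟨h3, (hlt.trans_le (Nat.mul_le_mul_left C (Nat.pow_le_pow_left ?_ n))).le⟩
      exact (Nat.pow_le_pow_right hp.pos (by omega)).trans h1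
  refine (Nat.cast_le.2 (card_le_card h)).trans ((Nat.cast_le.2 (card_union_le _ _)).trans ?_)
  rw [Nat.cast_add, Nat.card_Icc, Nat.add_sub_cancel]
  have hP2 : (0 : ℝ) < (P : ℝ) ^ 2 := by
    have : (0 : ℝ) < P := by exact_mod_cast hP
    positivity
  have h3 : ((C * (P ^ 2) ^ n : ℕ) : ℝ) ≤ ((C : ℝ) / (P : ℝ) ^ 2) * X := by
    rw [div_mul_eq_mul_div, le_div_iff₀ hP2]
    have : (C * (P ^ 2) ^ n) * P ^ 2 ≤ C * X := by
      calc (C * (P ^ 2) ^ n) * P ^ 2 = C * ((P ^ 2) ^ (n + 1)) := by ring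
        _ ≤ C * X := Nat.mul_le_mul_left _ hX
    exact_mod_cast this
  have h4 : (((Icc 1 X).filter fun a => p ^ V ∣ a).card : ℝ) ≤ (1 / (P : ℝ) ^ 2) * X := by
    refine (card_mult _ X).trans (mul_le_mul_of_nonneg_right ?_ (Nat.cast_nonneg _))
    refine one_div_le_one_div_of_le hP2 ?_
    exact_mod_cast h2.le
  calc _ ≤ ((C : ℝ) / (P : ℝ) ^ 2) * X + (1 / (P : ℝ) ^ 2) * X := add_le_add h3 h4
    _ = _ := by ring

/-- The sieve with an explicit cutoff. -/
theorem density_rate (C K n r P X : ℕ) (hP : 0 < P) (hKP : K ≤ P)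
    (hX : (P ^ 2) ^ (n + 1) ≤ X) :
    (((box r X).filter fun d => ¬ Cond C K n d ∧
      ∀ i, ∀ p : ℕ, p.Prime → p ∣ d i → C * p ≤ d i).card : ℝ) ≤
      ((r : ℝ) * (2 * (C + 1)) + (r : ℝ) ^ 2 + r) * (1 / P) * (X : ℝ) ^ r := by
  have hXr : (0 : ℝ) ≤ (X : ℝ) ^ r := by positivity
  have hP0 : (0 : ℝ) < P := by exact_mod_cast hP
  have hP1 : (1 : ℝ) ≤ P := by exact_mod_cast hP
  set δ : ℝ := ((C : ℝ) + 1) / (P : ℝ) ^ 2 with hδ
  have hδ0 : 0 ≤ δ := by positivity
  set A : Finset (Fin r → ℕ) := (univ : Finset (Fin r)).biUnion fun i =>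
    ((range (P + 1)).filter Nat.Prime).biUnion fun p => (box r X).filter fun d =>
      (p ∣ d i ∧ d i < C * (p ^ (d i).factorization p) ^ n) with hAdef
  set B : Finset (Fin r → ℕ) := (univ : Finset (Fin r × Fin r)).biUnion fun ij =>
    (Ioc P X).biUnion fun p => if ij.1 ≠ ij.2 then (box r X).filter fun d =>
      (p ∣ d ij.1 ∧ p ∣ d ij.2) else ∅ with hBdef
  set D : Finset (Fin r → ℕ) := (univ : Finset (Fin r)).biUnion fun i =>
    (box r X).filter fun d => ∃ p : ℕ, p.Prime ∧ P < p ∧ p ^ 2 ∣ d i with hDdef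
  have hsub : (box r X).filter (fun d => ¬ Cond C K n d ∧
      ∀ i, ∀ p : ℕ, p.Prime → p ∣ d i → C * p ≤ d i) ⊆ (A ∪ B) ∪ D := by
    intro d hd
    rw [mem_filter] at hd
    simp only [mem_union]
    rcases of_not_cond hKP hd.1 hd.2.1 with ⟨i, p, hp1, hp2, hp3, hp4⟩ |
      ⟨i, j, hij, p, hp, h1, h2⟩ | ⟨i, p, hp⟩ | ⟨i, p, hp, hpi, hlt⟩
    · left; left
      rw [hAdef, mem_biUnion]
      refine ⟨i, mem_univ _, ?_⟩
      rw [mem_biUnion]
      exact ⟨p, mem_filter.2 ⟨hp1, hp2⟩, mem_filter.2 ⟨hd.1, hp3, hp4⟩⟩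
    · left; right
      rw [hBdef, mem_biUnion]
      refine ⟨(i, j), mem_univ _, ?_⟩
      rw [mem_biUnion]
      refine ⟨p, hp, ?_⟩
      rw [if_pos hij]
      exact mem_filter.2 ⟨hd.1, h1, h2⟩
    · right
      rw [hDdef, mem_biUnion]
      exact ⟨i, mem_univ _, mem_filter.2 ⟨hd.1, p, hp⟩⟩
    · exact absurd (hd.2.2 i p hp hpi) (not_le.2 hlt)
  have hcA : (A.card : ℝ) ≤ r * ((P + 1) * δ) * (X : ℝ) ^ r := by
    refine (Nat.cast_le.2 card_biUnion_le).trans ?_
    rw [Nat.cast_sum]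
    have h1 : ∀ i : Fin r, ((((range (P + 1)).filter Nat.Prime).biUnion fun p =>
        (box r X).filter fun d => (p ∣ d i ∧ d i < C * (p ^ (d i).factorization p) ^ n)).card : ℝ) ≤
        (P + 1) * δ * (X : ℝ) ^ r := by
      intro i
      refine (Nat.cast_le.2 card_biUnion_le).trans ?_
      rw [Nat.cast_sum]
      calc _ ≤ ∑ p ∈ (range (P + 1)).filter Nat.Prime, δ * (X : ℝ) ^ r := by
            refine sum_le_sum fun p hp => ?_
            rw [mem_filter] at hp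
            exact card_one i (fun a => p ∣ a ∧ a < C * (p ^ a.factorization p) ^ n) δ
              (card_small_rate C n p P X hp.2 hP hX)
        _ = ((range (P + 1)).filter Nat.Prime).card * (δ * (X : ℝ) ^ r) := by
            rw [sum_const, nsmul_eq_mul]
        _ ≤ (P + 1) * (δ * (X : ℝ) ^ r) := by
            refine mul_le_mul_of_nonneg_right ?_ (by positivity)
            have := card_filter_le (range (P + 1)) Nat.Prime
            rw [card_range] at this
            exact_mod_cast this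
        _ = _ := by ring
    calc _ ≤ ∑ _i : Fin r, (P + 1) * δ * (X : ℝ) ^ r := sum_le_sum fun i _ => h1 i
      _ = _ := by simp; ring
  have hcB : (B.card : ℝ) ≤ (r : ℝ) ^ 2 * (1 / P) * (X : ℝ) ^ r := by
    refine (Nat.cast_le.2 card_biUnion_le).trans ?_
    rw [Nat.cast_sum]
    have h1 : ∀ ij : Fin r × Fin r, (((Ioc P X).biUnion fun p => if ij.1 ≠ ij.2 then
        (box r X).filter fun d => (p ∣ d ij.1 ∧ p ∣ d ij.2) else ∅).card : ℝ) ≤
        (1 / P) * (X : ℝ) ^ r := by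
      intro ij
      refine (Nat.cast_le.2 card_biUnion_le).trans ?_
      rw [Nat.cast_sum]
      calc _ ≤ ∑ p ∈ Ioc P X, (1 / (p : ℝ)) ^ 2 * (X : ℝ) ^ r := by
            refine sum_le_sum fun p _ => ?_
            split_ifs with hij
            · exact card_two hij (fun a => p ∣ a) (1 / p) (card_mult p X)
            · rw [card_empty, Nat.cast_zero]; positivity
        _ = (∑ p ∈ Ioc P X, (1 / (p : ℝ)) ^ 2) * (X : ℝ) ^ r := by rw [sum_mul]
        _ ≤ _ := mul_le_mul_of_nonneg_right (sum_inv_sq P X hP) hXr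
    calc _ ≤ ∑ _ij : Fin r × Fin r, (1 / (P : ℝ)) * (X : ℝ) ^ r := sum_le_sum fun i _ => h1 i
      _ = _ := by simp; ring
  have hcD : (D.card : ℝ) ≤ (r : ℝ) * (1 / P) * (X : ℝ) ^ r := by
    refine (Nat.cast_le.2 card_biUnion_le).trans ?_
    rw [Nat.cast_sum]
    calc _ ≤ ∑ _i : Fin r, (1 / (P : ℝ)) * (X : ℝ) ^ r := sum_le_sum fun i _ =>
          card_one i (fun a => ∃ p : ℕ, p.Prime ∧ P < p ∧ p ^ 2 ∣ a) (1 / P) (card_sq P X hP)
      _ = _ := by simp; ring
  have hAc : (r : ℝ) * ((P + 1) * δ) ≤ r * (2 * (C + 1)) * (1 / P) := by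
    have h1 : ((P : ℝ) + 1) * δ ≤ 2 * (C + 1) * (1 / P) := by
      have h2 : ((P : ℝ) + 1) ≤ 2 * P := by linarith
      calc ((P : ℝ) + 1) * δ ≤ 2 * P * δ := mul_le_mul_of_nonneg_right h2 hδ0
        _ = 2 * (C + 1) * (1 / P) := by
            rw [hδ]
            field_simp
    calc (r : ℝ) * ((P + 1) * δ) ≤ r * (2 * (C + 1) * (1 / P)) :=
          mul_le_mul_of_nonneg_left h1 (Nat.cast_nonneg _)
      _ = _ := by ring
  calc (((box r X).filter fun d => ¬ Cond C K n d ∧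
        ∀ i, ∀ p : ℕ, p.Prime → p ∣ d i → C * p ≤ d i).card : ℝ)
      ≤ (((A ∪ B) ∪ D).card : ℝ) := Nat.cast_le.2 (card_le_card hsub)
    _ ≤ (A.card + B.card) + D.card := by
        exact_mod_cast (card_union_le _ _).trans
          (Nat.add_le_add (card_union_le _ _) le_rfl)
    _ ≤ (r * (2 * (C + 1)) * (1 / P) * (X : ℝ) ^ r + (r : ℝ) ^ 2 * (1 / P) * (X : ℝ) ^ r) +
          (r : ℝ) * (1 / P) * (X : ℝ) ^ r :=
        add_le_add (add_le_add (hcA.trans (mul_le_mul_of_nonneg_right hAc hXr)) hcB) hcD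
    _ = _ := by ring

/-- **Power saving.**  Apart from the tuples in which some `d i` is a prime times an integer less
than `C`, few tuples violate the condition. -/
theorem density_pow (C K n r : ℕ) : ∃ M : ℕ, ∀ X : ℕ, 1 ≤ X →
    (((box r X).filter fun d => ¬ Cond C K n d ∧
      ∀ i, ∀ p : ℕ, p.Prime → p ∣ d i → C * p ≤ d i).card : ℝ) ≤
      M * (X : ℝ) ^ ((r : ℝ) - 1 / (2 * n + 2)) := by
  set A : ℝ := (r : ℝ) * (2 * (C + 1)) + (r : ℝ) ^ 2 + r with hA
  have hA0 : 0 ≤ A := by positivity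
  refine ⟨⌈2 * A⌉₊ + K, fun X hX => ?_⟩
  have hX1 : (1 : ℝ) ≤ X := by exact_mod_cast hX
  have hX0 : (0 : ℝ) < X := by linarith
  set t : ℝ := 1 / (2 * n + 2) with ht
  have ht0 : 0 < t := by positivity
  set x : ℝ := (X : ℝ) ^ t with hx
  have hx1 : 1 ≤ x := Real.one_le_rpow hX1 ht0.le
  have hx0 : 0 < x := by linarith
  have hxX : x ^ (2 * (n + 1)) = X := by
    rw [hx, ← Real.rpow_natCast, ← Real.rpow_mul hX0.le]
    have : t * ((2 * (n + 1) : ℕ) : ℝ) = 1 := by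
      rw [ht]; push_cast; field_simp
    rw [this, Real.rpow_one]
  have hsplit : (X : ℝ) ^ r = x * (X : ℝ) ^ ((r : ℝ) - t) := by
    rw [hx, ← Real.rpow_add hX0, ← Real.rpow_natCast]
    congr 1
    ring
  have hY : 0 < (X : ℝ) ^ ((r : ℝ) - t) := Real.rpow_pos_of_pos hX0 _
  set P : ℕ := ⌊x⌋₊ with hP
  have hP1 : 0 < P := Nat.floor_pos.2 hx1
  have hP1' : (1 : ℝ) ≤ P := by exact_mod_cast hP1
  have hPx : (P : ℝ) ≤ x := Nat.floor_le hx0.le
  have hxP : x < P + 1 := Nat.lt_floor_add_one x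
  push_cast
  by_cases hK : K ≤ P
  · have h1 : (P ^ 2) ^ (n + 1) ≤ X := by
      have : ((P : ℝ)) ^ (2 * (n + 1)) ≤ X := by
        rw [← hxX]
        exact pow_le_pow_left₀ (by positivity) hPx _
      rw [← pow_mul]
      exact_mod_cast this
    refine (density_rate C K n r P X hP1 hK h1).trans ?_
    rw [← hA, hsplit]
    have h2 : x * (1 / (P : ℝ)) ≤ 2 := by
      rw [mul_one_div, div_le_iff₀ (by linarith)]
      linarith
    have h3 : 2 * A ≤ ⌈2 * A⌉₊ := Nat.le_ceil _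
    have h4 : (0 : ℝ) ≤ K := Nat.cast_nonneg _
    calc A * (1 / (P : ℝ)) * (x * (X : ℝ) ^ ((r : ℝ) - t))
        = A * (x * (1 / (P : ℝ))) * (X : ℝ) ^ ((r : ℝ) - t) := by ring
      _ ≤ A * 2 * (X : ℝ) ^ ((r : ℝ) - t) :=
          mul_le_mul_of_nonneg_right (mul_le_mul_of_nonneg_left h2 hA0) hY.le
      _ ≤ ((⌈2 * A⌉₊ : ℝ) + K) * (X : ℝ) ^ ((r : ℝ) - t) :=
          mul_le_mul_of_nonneg_right (by linarith) hY.le
  · have h1 : ((P : ℝ) + 1) ≤ K := by exact_mod_cast not_le.1 hK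
    have h2 : (((box r X).filter fun d => ¬ Cond C K n d ∧
        ∀ i, ∀ p : ℕ, p.Prime → p ∣ d i → C * p ≤ d i).card : ℝ) ≤ (X : ℝ) ^ r := by
      refine (Nat.cast_le.2 (card_filter_le _ _)).trans ?_
      unfold Pool.Agent.MultiSpec.Density.box
      rw [Fintype.card_piFinset]
      simp
    refine h2.trans ?_
    rw [hsplit]
    have h4 : (0 : ℝ) ≤ ⌈2 * A⌉₊ := Nat.cast_nonneg _
    exact mul_le_mul_of_nonneg_right (by linarith) hY.le

end Pool.Agent.MultiRate
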